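import Pool.Agent.Helper10.BD.Goals
import Pool.Agent.Helper50.BC.ASM

/-!
# Project BD, ASM: the assembly
-/

open scoped ContDiff
open Real Filter Topology

namespace Pool.Agent.Helper50.BD.ASM

open Pool.Agent.Helper50.BC (E comp2 dderiv two_le_infty sq2)
open Pool.Agent.Helper10.BD

variable {q r j : ℕ}

/-- the first two components -/
noncomputable def pw : (E q × E r × E j) →L[ℝ] (E q × E r) :=
  (ContinuousLinearMap.fst ℝ (E q) (E r × E j)).prod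
    ((ContinuousLinearMap.fst ℝ (E r) (E j)).comp (ContinuousLinearMap.snd ℝ (E q) (E r × E j)))

/-- the last component -/
noncomputable def pz : (E q × E r × E j) →L[ℝ] E j :=
  (ContinuousLinearMap.snd ℝ (E r) (E j)).comp (ContinuousLinearMap.snd ℝ (E q) (E r × E j))

lemma pw_apply (p : E q × E r × E j) : pw p = (p.1, p.2.1) := rfl

lemma pz_apply (p : E q × E r × E j) : pz p = p.2.2 := rfl

/-- the diffeomorphism -/
noncomputable def Th (θ : E q × E r → E q × E r) (g : E q × E r → ℝ) (p : E q × E r × E j) :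
    E q × E r × E j := ((θ (pw p)).1, (θ (pw p)).2, g (pw p) • pz p)

/-- its differential -/
noncomputable def dTh (θ : E q × E r → E q × E r) (g : E q × E r → ℝ) (p : E q × E r × E j) :
    (E q × E r × E j) →L[ℝ] (E q × E r × E j) :=
  ((ContinuousLinearMap.fst ℝ (E q) (E r)).comp ((fderiv ℝ θ (pw p)).comp pw)).prod
    (((ContinuousLinearMap.snd ℝ (E q) (E r)).comp ((fderiv ℝ θ (pw p)).comp pw)).prod
      (g (pw p) • pz + ((fderiv ℝ g (pw p)).comp pw).smulRight (pz p)))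

lemma pw_Th (θ : E q × E r → E q × E r) (g : E q × E r → ℝ) (p : E q × E r × E j) :
    pw (Th θ g p) = θ (pw p) := rfl

lemma pz_Th (θ : E q × E r → E q × E r) (g : E q × E r → ℝ) (p : E q × E r × E j) :
    pz (Th θ g p) = g (pw p) • pz p := rfl

lemma pw_dTh (θ : E q × E r → E q × E r) (g : E q × E r → ℝ) (p ξ : E q × E r × E j) :
    pw (dTh θ g p ξ) = fderiv ℝ θ (pw p) (pw ξ) := rfl

lemma pz_dTh (θ : E q × E r → E q × E r) (g : E q × E r → ℝ) (p ξ : E q × E r × E j) :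
    pz (dTh θ g p ξ) = g (pw p) • pz ξ + (fderiv ℝ g (pw p) (pw ξ)) • pz p := rfl

lemma ext_wz {p p' : E q × E r × E j} (h1 : pw p = pw p') (h2 : pz p = pz p') : p = p' := by
  rw [pw_apply, pw_apply] at h1
  rw [pz_apply, pz_apply] at h2
  have h3 := congrArg Prod.fst h1
  have h4 := congrArg Prod.snd h1
  exact Prod.ext h3 (Prod.ext h4 h2)

lemma Th_hasFDerivAt {θ : E q × E r → E q × E r} {g : E q × E r → ℝ} {p : E q × E r × E j}
    (hθ : DifferentiableAt ℝ θ (pw p)) (hg : DifferentiableAt ℝ g (pw p)) :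
    HasFDerivAt (Th θ g) (dTh θ g p) p := by
  have h1 : HasFDerivAt (fun p : E q × E r × E j => θ (pw p)) ((fderiv ℝ θ (pw p)).comp pw) p :=
    HasFDerivAt.comp p hθ.hasFDerivAt pw.hasFDerivAt
  have h2 : HasFDerivAt (fun p : E q × E r × E j => g (pw p)) ((fderiv ℝ g (pw p)).comp pw) p :=
    HasFDerivAt.comp p hg.hasFDerivAt pw.hasFDerivAt
  have h3 : HasFDerivAt (fun p : E q × E r × E j => g (pw p) • pz p)
      (g (pw p) • pz + ((fderiv ℝ g (pw p)).comp pw).smulRight (pz p)) p :=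
    h2.smul pz.hasFDerivAt
  exact h1.fst.prodMk (h1.snd.prodMk h3)

lemma Th_contDiffOn {θ : E q × E r → E q × E r} {g : E q × E r → ℝ} {O : Set (E q × E r)}
    (hθ : ContDiffOn ℝ ∞ θ O) (hg : ContDiffOn ℝ ∞ g O) :
    ContDiffOn ℝ ∞ (Th θ g : E q × E r × E j → E q × E r × E j) (pw ⁻¹' O) := by
  have h0 : ContDiffOn ℝ ∞ (fun p : E q × E r × E j => pw p) (pw ⁻¹' O) :=
    (pw : (E q × E r × E j) →L[ℝ] _).contDiff.contDiffOn
  have h1 : ContDiffOn ℝ ∞ (fun p : E q × E r × E j => θ (pw p)) (pw ⁻¹' O) :=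
    hθ.comp h0 (fun _ h => h)
  have h2 : ContDiffOn ℝ ∞ (fun p : E q × E r × E j => g (pw p)) (pw ⁻¹' O) :=
    hg.comp h0 (fun _ h => h)
  have h3 : ContDiffOn ℝ ∞ (fun p : E q × E r × E j => g (pw p) • pz p) (pw ⁻¹' O) :=
    h2.smul (pz : (E q × E r × E j) →L[ℝ] _).contDiff.contDiffOn
  have h4 := contDiff_fst.comp_contDiffOn h1
  have h5 := contDiff_snd.comp_contDiffOn h1
  exact h4.prodMk (h5.prodMk h3)

/-- the defining function -/
noncomputable def GG (Φ : E q × E r → ℝ) (p : E q × E r × E j) : ℝ := ‖pz p‖ ^ 2 - Φ (pw p)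

lemma GG_contDiff {Φ : E q × E r → ℝ} (hΦ : ContDiff ℝ ∞ Φ) :
    ContDiff ℝ ∞ (GG Φ : E q × E r × E j → ℝ) := by
  have h1 : ContDiff ℝ ∞ (fun p : E q × E r × E j => ‖pz p‖ ^ 2) :=
    (pz : (E q × E r × E j) →L[ℝ] _).contDiff.norm_sq ℝ
  have h2 : ContDiff ℝ ∞ (fun p : E q × E r × E j => Φ (pw p)) :=
    hΦ.comp (pw : (E q × E r × E j) →L[ℝ] _).contDiff
  exact h1.sub h2

lemma GG_fderiv {Φ : E q × E r → ℝ} (hΦ : ContDiff ℝ ∞ Φ) (p ξ : E q × E r × E j) :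
    fderiv ℝ (GG Φ) p ξ = 2 * inner ℝ (pz p) (pz ξ) - fderiv ℝ Φ (pw p) (pw ξ) := by
  have h1 : HasFDerivAt (fun p : E q × E r × E j => ‖pz p‖ ^ 2)
      (2 • (innerSL ℝ (pz p)).comp (pz : (E q × E r × E j) →L[ℝ] E j)) p :=
    (pz : (E q × E r × E j) →L[ℝ] E j).hasFDerivAt.norm_sq
  have h2 : HasFDerivAt (fun p : E q × E r × E j => Φ (pw p)) ((fderiv ℝ Φ (pw p)).comp pw) p :=
    HasFDerivAt.comp p (hΦ.differentiable (by simp) _).hasFDerivAt pw.hasFDerivAt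
  have h3 := (h1.sub h2).fderiv
  have h4 : (GG Φ : E q × E r × E j → ℝ) =
    (fun p : E q × E r × E j => ‖pz p‖ ^ 2) - (fun p : E q × E r × E j => Φ (pw p)) := rfl
  rw [h4, h3]
  simp [two_mul, two_smul]

/-- the line p + s ξ -/
lemma line_deriv {X : Type} [NormedAddCommGroup X] [NormedSpace ℝ X] (p ξ : X) :
    deriv (fun s : ℝ => p + s • ξ) = fun _ => ξ := by
  ext s
  have h : HasDerivAt (fun s : ℝ => p + s • ξ) ((1 : ℝ) • ξ) s :=
    ((hasDerivAt_id s).smul_const ξ).const_add p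
  rw [h.deriv, one_smul]

lemma line_contDiff {X : Type} [NormedAddCommGroup X] [NormedSpace ℝ X] (p ξ : X) (t : ℝ) :
    ContDiffAt ℝ 2 (fun s : ℝ => p + s • ξ) t :=
  (contDiff_const.add (contDiff_id.smul contDiff_const)).contDiffAt

lemma GG_fderiv2 {Φ : E q × E r → ℝ} (hΦ : ContDiff ℝ ∞ Φ) (p ξ : E q × E r × E j) :
    fderiv ℝ (fderiv ℝ (GG Φ)) p ξ ξ =
      2 * ‖pz ξ‖ ^ 2 - fderiv ℝ (fderiv ℝ Φ) (pw p) (pw ξ) (pw ξ) := by
  have e1 := comp2 (GG_contDiff hΦ) (line_contDiff p ξ 0)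
  have e2 := comp2 hΦ (line_contDiff (pw p) (pw ξ) 0)
  have e3 := sq2 (line_contDiff (pz p) (pz ξ) 0)
  simp only [line_deriv, deriv_const', zero_smul, add_zero, map_zero, inner_zero_right,
    mul_zero] at e1 e2 e3
  rw [← e1, ← e3, ← e2]
  have c1 : ContDiff ℝ ∞ (fun s : ℝ => ‖pz p + s • pz ξ‖ ^ 2) :=
    (contDiff_const.add (contDiff_id.smul contDiff_const)).norm_sq ℝ
  have c2 : ContDiff ℝ ∞ (fun s : ℝ => Φ (pw p + s • pw ξ)) :=
    hΦ.comp (contDiff_const.add (contDiff_id.smul contDiff_const))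
  have h1 : (fun s : ℝ => GG Φ (p + s • ξ)) =
      fun s => ‖pz p + s • pz ξ‖ ^ 2 - Φ (pw p + s • pw ξ) := by
    ext s
    show ‖pz (p + s • ξ)‖ ^ 2 - Φ (pw (p + s • ξ)) = _
    rw [map_add, map_smul, map_add, map_smul]
  have h2 : deriv (fun s : ℝ => ‖pz p + s • pz ξ‖ ^ 2 - Φ (pw p + s • pw ξ)) =
      fun s => deriv (fun s : ℝ => ‖pz p + s • pz ξ‖ ^ 2) s -
        deriv (fun s : ℝ => Φ (pw p + s • pw ξ)) s := by
    ext s
    exact ((c1.differentiable (by simp) s).hasDerivAt.sub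
      (c2.differentiable (by simp) s).hasDerivAt).deriv
  rw [h1, h2]
  have d1 : DifferentiableAt ℝ (deriv (fun s : ℝ => ‖pz p + s • pz ξ‖ ^ 2)) 0 :=
    (dderiv ((c1.of_le two_le_infty).contDiffAt)).differentiableAt
  have d2 : DifferentiableAt ℝ (deriv (fun s : ℝ => Φ (pw p + s • pw ξ))) 0 :=
    (dderiv ((c2.of_le two_le_infty).contDiffAt)).differentiableAt
  exact (d1.hasDerivAt.sub d2.hasDerivAt).deriv

/-- the differential of f -/
lemma f_fderiv {n : ℕ} {Ψ : E q × E r × E j → E n} (hΨ : ContDiff ℝ ∞ Ψ) (S : ℝ)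
    {θ : E q × E r → E q × E r} {g : E q × E r → ℝ} {p : E q × E r × E j}
    (hθ : DifferentiableAt ℝ θ (pw p)) (hg : DifferentiableAt ℝ g (pw p)) (ξ : E q × E r × E j) :
    fderiv ℝ (fun p => S⁻¹ • Ψ (Th θ g p)) p ξ =
      S⁻¹ • fderiv ℝ Ψ (Th θ g p) (dTh θ g p ξ) := by
  have h1 : HasFDerivAt Ψ (fderiv ℝ Ψ (Th θ g p)) (Th θ g p) :=
    (hΨ.differentiable (by simp) _).hasFDerivAt
  have h2 := ((h1.comp p (Th_hasFDerivAt hθ hg)).const_smul S⁻¹).fderiv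
  have h3 : (fun p : E q × E r × E j => S⁻¹ • Ψ (Th θ g p)) = S⁻¹ • (Ψ ∘ Th θ g) := rfl
  rw [h3, h2]
  rfl

lemma inner_aux {Y : Type} [NormedAddCommGroup Y] [InnerProductSpace ℝ Y] (a b : ℝ) (v x : Y) :
    inner ℝ (a • v) (a • x + b • v) = a ^ 2 * inner ℝ v x + a * b * ‖v‖ ^ 2 := by
  rw [inner_add_right, real_inner_smul_left, real_inner_smul_left, real_inner_smul_right,
    real_inner_smul_right, real_inner_self_eq_norm_sq]
  ring

lemma HH_hasFDerivAt {u : E q → ℝ} (hu : ContDiff ℝ ∞ u) (w : E q × E r) :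
    ∃ L : (E q × E r) →L[ℝ] ℝ, HasFDerivAt (HH u) L w ∧
      ∀ ξ, L ξ = fderiv ℝ u w.1 ξ.1 - 4 * (‖w.2‖ ^ 2 - 1) * inner ℝ w.2 ξ.2 := by
  have h1 : HasFDerivAt (fun w : E q × E r => u w.1)
      ((fderiv ℝ u w.1).comp (ContinuousLinearMap.fst ℝ (E q) (E r))) w :=
    HasFDerivAt.comp w (hu.differentiable (by simp) _).hasFDerivAt hasFDerivAt_fst
  have h2 : HasFDerivAt (fun w : E q × E r => ‖w.2‖ ^ 2)
      (2 • (innerSL ℝ w.2).comp (ContinuousLinearMap.snd ℝ (E q) (E r))) w :=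
    (hasFDerivAt_snd (p := w)).norm_sq
  have h3 := (h2.sub_const (1 : ℝ)).pow 2
  refine ⟨_, h1.sub h3, ?_⟩
  intro ξ
  simp
  ring

theorem t (hABS : G_ABS) : G_ASM := by
  intro q r j u Φ O θ g n Ψ S a B b hu hP hM hT hS ha hB hb hK
  obtain ⟨hΦ, hP⟩ := hP
  obtain ⟨hO, hHO, hθ, hg, hM⟩ := hM
  obtain ⟨hΨ, hT⟩ := hT
  have hθd : ∀ w ∈ O, DifferentiableAt ℝ θ w := fun w hw =>
    (hθ.contDiffAt (hO.mem_nhds hw)).differentiableAt (by simp)
  have hgd : ∀ w ∈ O, DifferentiableAt ℝ g w := fun w hw =>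
    (hg.contDiffAt (hO.mem_nhds hw)).differentiableAt (by simp)
  have key0 : ∀ p ∈ XX r j u, HH u (pw p) = ‖pz p‖ ^ 2 := by
    intro p hp
    have hp' : ‖p.2.2‖ ^ 2 + (‖p.2.1‖ ^ 2 - 1) ^ 2 = u p.1 := hp
    show u p.1 - (‖p.2.1‖ ^ 2 - 1) ^ 2 = ‖p.2.2‖ ^ 2
    linarith
  have key1 : ∀ p ∈ XX r j u, pw p ∈ O := by
    intro p hp
    exact hHO _ (by rw [key0 p hp]; positivity)
  have key2 : ∀ p ∈ XX r j u, ‖pz (Th θ g p)‖ ^ 2 = Φ (pw (Th θ g p)) := by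
    intro p hp
    rw [pw_Th, pz_Th, (hM _ (key1 p hp)).2.2, key0 p hp, norm_smul, mul_pow, Real.norm_eq_abs,
      sq_abs]
  have key3 : ∀ p ∈ XX r j u, 0 ≤ Φ (pw (Th θ g p)) := by
    intro p hp; rw [← key2 p hp]; positivity
  have key4 : ∀ p ∈ XX r j u, ‖(Th θ g p).2.2‖ ≤ 1 / 10 ∧ ‖(Th θ g p).2.1‖ ^ 2 ≤ 324 / 1000 := by
    intro p hp
    obtain ⟨h1, h2, _⟩ := hP _ (key3 p hp)
    refine ⟨?_, h1⟩
    have h3 : ‖pz (Th θ g p)‖ ^ 2 ≤ (1 / 10) ^ 2 := by rw [key2 p hp]; linarith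
    exact le_of_sq_le_sq h3 (by norm_num)
  refine ⟨fun p => S⁻¹ • Ψ (Th θ g p), ⟨pw ⁻¹' O, hO.preimage pw.continuous, key1, ?_⟩, ?_, ?_, ?_⟩
  · exact (hΨ.comp_contDiffOn (Th_contDiffOn hθ hg)).const_smul _
  · intro p hp
    have h1 := (hT (Th θ g p) (key4 p hp).1 (key4 p hp).2).1
    rw [norm_smul, Real.norm_eq_abs, abs_of_pos (inv_pos.2 hS), inv_mul_le_iff₀ hS]
    linarith
  · intro p hp ξ _ hξ
    have hpO := key1 p hp
    rw [f_fderiv hΨ S (hθd _ hpO) (hgd _ hpO)] at hξ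
    have h1 : fderiv ℝ Ψ (Th θ g p) (dTh θ g p ξ) = 0 := by
      rcases smul_eq_zero.1 hξ with h | h
      · exact absurd h (inv_pos.2 hS).ne'
      · exact h
    have h2 := (hT (Th θ g p) (key4 p hp).1 (key4 p hp).2).2.1 (dTh θ g p ξ)
    rw [h1, norm_zero] at h2
    have q1 := sq_nonneg ‖(dTh θ g p ξ).1‖
    have q2 := sq_nonneg ‖(dTh θ g p ξ).2.1‖
    have q3 := sq_nonneg ‖(dTh θ g p ξ).2.2‖
    have h2' : ‖(dTh θ g p ξ).1‖ ^ 2 + ‖(dTh θ g p ξ).2.1‖ ^ 2 + ‖(dTh θ g p ξ).2.2‖ ^ 2 ≤ 0 := by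
      by_contra hcon
      push Not at hcon
      have := mul_pos ha hcon
      norm_num at h2
      linarith
    have z1 : (dTh θ g p ξ).1 = 0 := by
      rw [← norm_eq_zero]; exact pow_eq_zero_iff (two_ne_zero) |>.1 (by linarith)
    have z2 : (dTh θ g p ξ).2.1 = 0 := by
      rw [← norm_eq_zero]; exact pow_eq_zero_iff (two_ne_zero) |>.1 (by linarith)
    have z3 : (dTh θ g p ξ).2.2 = 0 := by
      rw [← norm_eq_zero]; exact pow_eq_zero_iff (two_ne_zero) |>.1 (by linarith)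
    have z4 : fderiv ℝ θ (pw p) (pw ξ) = 0 := by
      rw [← pw_dTh θ g p ξ]
      exact Prod.ext z1 z2
    have hinj : Function.Injective (fderiv ℝ θ (pw p)) := by
      have h5 : Function.Surjective ((fderiv ℝ θ (pw p)).toLinearMap) := (hM _ hpO).2.1
      exact (LinearMap.injective_iff_surjective (f := (fderiv ℝ θ (pw p)).toLinearMap)).2 h5
    have z5 : pw ξ = 0 := hinj (by rw [z4, map_zero])
    have z6 : pz (dTh θ g p ξ) = 0 := z3
    rw [pz_dTh, z5, map_zero, zero_smul, add_zero] at z6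
    have z7 : pz ξ = 0 := by
      rcases smul_eq_zero.1 z6 with h | h
      · exact absurd h (hM _ hpO).1.ne'
      · exact h
    exact ext_wz (by rw [z5, map_zero]) (by rw [z7, map_zero])
  · intro c t hc hcX h1 horth
    have hcXt : c t ∈ XX r j u := hcX.self_of_nhds
    have hctO := key1 _ hcXt
    have hThC : ContDiffAt ℝ ∞ (Th θ g : E q × E r × E j → E q × E r × E j) (c t) :=
      (Th_contDiffOn hθ hg).contDiffAt ((hO.preimage pw.continuous).mem_nhds hctO)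
    have hγ : ContDiffAt ℝ 2 (fun s => Th θ g (c s)) t :=
      (hThC.of_le two_le_infty).comp t hc
    set γ : ℝ → E q × E r × E j := fun s => Th θ g (c s) with hγdef
    set γ1 := deriv γ t with hγ1
    have hγd : HasDerivAt γ γ1 t := (hγ.differentiableAt (by norm_num)).hasDerivAt
    have hG0 : ∀ᶠ s in 𝓝 t, GG Φ (γ s) = 0 := by
      filter_upwards [hcX] with s hs
      show ‖pz (Th θ g (c s))‖ ^ 2 - Φ (pw (Th θ g (c s))) = 0
      rw [key2 _ hs, sub_self]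
    have hGC := GG_contDiff (j := j) hΦ
    -- first order condition
    have hG1 : fderiv ℝ (GG Φ) (γ t) γ1 = 0 := by
      have e1 : HasDerivAt (fun s => GG Φ (γ s)) (fderiv ℝ (GG Φ) (γ t) γ1) t :=
        (hGC.differentiable (by simp) _).hasFDerivAt.comp_hasDerivAt t hγd
      have e2 : (fun s => GG Φ (γ s)) =ᶠ[𝓝 t] fun _ => (0 : ℝ) := hG0
      have e3 : deriv (fun s => GG Φ (γ s)) t = 0 := by rw [e2.deriv_eq]; simp
      rw [← e1.deriv, e3]
    have hΦ0 : 0 ≤ Φ (pw (γ t)) := key3 _ hcXt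
    have hZ : ‖pz (γ t)‖ ^ 2 = Φ (pw (γ t)) := key2 _ hcXt
    obtain ⟨_, _, n1, n2, hn, hν0, hcurv⟩ := hP _ hΦ0
    set ν2 : ℝ := ‖n1‖ ^ 2 + ‖n2‖ ^ 2 + 4 * Φ (pw (γ t)) with hν2
    set N : E q × E r × E j := (-n1, -n2, (2 : ℝ) • pz (γ t)) with hN
    have hpwN : pw N = (-n1, -n2) := rfl
    have hpzN : pz N = (2 : ℝ) • pz (γ t) := rfl
    have hGN : fderiv ℝ (GG Φ) (γ t) N = ν2 := by
      rw [GG_fderiv hΦ, hn, hpwN, hpzN]
      simp only [inner_neg_right, inner_smul_right, real_inner_self_eq_norm_sq]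
      rw [hZ, hν2]
      ring
    set A : ℝ := ‖γ1.1‖ ^ 2 + ‖γ1.2.1‖ ^ 2 + ‖γ1.2.2‖ ^ 2 with hA
    have hA0 : 0 ≤ A := by positivity
    have hD2 : |fderiv ℝ (fderiv ℝ (GG Φ)) (γ t) γ1 γ1| ≤ 21 * √ν2 * A := by
      rw [GG_fderiv2 hΦ]
      refine hcurv (pw γ1) (‖pz γ1‖ ^ 2) (by positivity) ?_
      rw [GG_fderiv hΦ] at hG1
      have e1 : fderiv ℝ Φ (pw (γ t)) (pw γ1) = 2 * inner ℝ (pz (γ t)) (pz γ1) := by linarith
      rw [e1, ← hZ]
      have e2 := abs_real_inner_le_norm (pz (γ t)) (pz γ1)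
      have e3 : (inner ℝ (pz (γ t)) (pz γ1)) ^ 2 ≤ (‖pz (γ t)‖ * ‖pz γ1‖) ^ 2 := by
        rw [← sq_abs]
        exact pow_le_pow_left₀ (abs_nonneg _) e2 2
      nlinarith [e3]
    obtain ⟨_, b1, b2, b3⟩ := hT (γ t) (key4 _ hcXt).1 (key4 _ hcXt).2
    have hPN : ‖fderiv ℝ Ψ (γ t) N‖ ≤ B * √ν2 := by
      have a1 := b2 N
      have a2 : ‖N.1‖ ^ 2 + ‖N.2.1‖ ^ 2 + ‖N.2.2‖ ^ 2 = ν2 := by
        show ‖-n1‖ ^ 2 + ‖-n2‖ ^ 2 + ‖(2 : ℝ) • pz (γ t)‖ ^ 2 = ν2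
        rw [norm_neg, norm_neg, norm_smul, mul_pow, hZ, hν2]
        norm_num
      rw [a2] at a1
      refine le_of_sq_le_sq ?_ (by positivity)
      rw [mul_pow, Real.sq_sqrt hν0.le]
      exact a1
    -- the derivatives of f ∘ c
    have hΨc : ContDiffAt ℝ 2 (fun s => Ψ (γ s)) t :=
      (hΨ.of_le two_le_infty).contDiffAt.comp t hγ
    have e1 : deriv (fun s => S⁻¹ • Ψ (Th θ g (c s))) =ᶠ[𝓝 t]
        fun s => S⁻¹ • deriv (fun s => Ψ (γ s)) s := by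
      filter_upwards [hΨc.eventually (by simp)] with s hs
      exact ((hs.differentiableAt (by norm_num)).hasDerivAt.const_smul S⁻¹).deriv
    have e2 : deriv (deriv (fun s => S⁻¹ • Ψ (Th θ g (c s)))) t =
        S⁻¹ • deriv (deriv (fun s => Ψ (γ s))) t := by
      rw [e1.deriv_eq]
      exact ((dderiv hΨc).const_smul S⁻¹).deriv
    have e4 : deriv (fun s => S⁻¹ • Ψ (Th θ g (c s))) t =
        S⁻¹ • fderiv ℝ Ψ (γ t) γ1 := by
      rw [e1.self_of_nhds]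
      show S⁻¹ • deriv (fun s => Ψ (γ s)) t = _
      congr 1
      exact ((hΨ.differentiable (by simp) _).hasFDerivAt.comp_hasDerivAt t hγd).deriv
    have hSpeed : ‖fderiv ℝ Ψ (γ t) γ1‖ = S := by
      rw [e4, norm_smul, Real.norm_eq_abs, abs_of_pos (inv_pos.2 hS)] at h1
      field_simp at h1
      exact h1
    have hOrth : ∀ τ, fderiv ℝ (GG Φ) (γ t) τ = 0 →
        inner ℝ (deriv (deriv (fun s => Ψ (γ s))) t) (fderiv ℝ Ψ (γ t) τ) = 0 := by
      intro τ hτ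
      rw [GG_fderiv hΦ] at hτ
      obtain ⟨hgw, hsur, _⟩ := hM _ hctO
      obtain ⟨ξ', hξ'⟩ := hsur (pw τ)
      set v : E j := pz (c t) with hv
      set w : E q × E r := pw (c t) with hw
      set ξ : E q × E r × E j :=
        (ξ'.1, ξ'.2, (g w)⁻¹ • (pz τ - (fderiv ℝ g w ξ') • v)) with hξ
      have hpwξ : pw ξ = ξ' := rfl
      have hpzξ : pz ξ = (g w)⁻¹ • (pz τ - (fderiv ℝ g w ξ') • v) := rfl
      have hdξ : dTh θ g (c t) ξ = τ := by
        refine ext_wz ?_ ?_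
        · rw [pw_dTh, hpwξ, hξ']
        · rw [pz_dTh, hpwξ, hpzξ, smul_inv_smul₀ hgw.ne']
          abel
      have hpzτ : pz τ = g w • pz ξ + (fderiv ℝ g w ξ') • v := by
        rw [hpzξ, smul_inv_smul₀ hgw.ne']
        abel
      have hTT : TT u (c t) ξ := by
        obtain ⟨L, hL, hLξ⟩ := HH_hasFDerivAt (r := r) hu w
        have d1 : HasFDerivAt (fun w => Φ (θ w)) ((fderiv ℝ Φ (θ w)).comp (fderiv ℝ θ w)) w :=
          HasFDerivAt.comp w (hΦ.differentiable (by simp) _).hasFDerivAt (hθd _ hctO).hasFDerivAt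
        have d2 : HasFDerivAt g (fderiv ℝ g w) w := (hgd _ hctO).hasFDerivAt
        have d4 := (d2.pow 2).mul hL
        have d5 : (fun w => Φ (θ w)) =ᶠ[𝓝 w] fun w => g w ^ 2 * HH u w := by
          filter_upwards [hO.mem_nhds hctO] with w' hw'
          exact (hM w' hw').2.2
        have d6 := (d1.congr_of_eventuallyEq d5.symm).unique d4
        have d7 := congrArg (fun T : (E q × E r) →L[ℝ] ℝ => T ξ') d6
        simp only [ContinuousLinearMap.comp_apply, _root_.smul_apply,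
          _root_.add_apply, smul_eq_mul] at d7
        have hHH : HH u w = ‖v‖ ^ 2 := key0 _ hcXt
        have hγt : pz (γ t) = g w • v := rfl
        have hγw : pw (γ t) = θ w := rfl
        rw [hξ', hLξ, hHH] at d7
        rw [hγw, hγt, hpzτ, inner_aux] at hτ
        have hg2 : (g w) ^ 2 ≠ 0 := pow_ne_zero 2 hgw.ne'
        show 2 * inner ℝ v (pz ξ) + 4 * (‖w.2‖ ^ 2 - 1) * inner ℝ w.2 ξ'.2 =
          fderiv ℝ u w.1 ξ'.1
        have d9 : (g w) ^ 2 * (2 * inner ℝ v (pz ξ) + 4 * (‖w.2‖ ^ 2 - 1) * inner ℝ w.2 ξ'.2) =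
            (g w) ^ 2 * (fderiv ℝ u w.1 ξ'.1) := by
          simp at d7
          linarith
        exact mul_left_cancel₀ hg2 d9
      have horth2 := horth ξ hTT
      rw [f_fderiv hΨ S (hθd _ hctO) (hgd _ hctO), hdξ, e2, inner_smul_left,
        inner_smul_right] at horth2
      simp only [conj_trivial] at horth2
      have hS' : S⁻¹ ≠ 0 := (inv_pos.2 hS).ne'
      rcases mul_eq_zero.1 horth2 with h | h
      · exact absurd h hS'
      · rcases mul_eq_zero.1 h with h | h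
        · exact absurd h hS'
        · exact h
    have hfin := hABS n _ Ψ (GG Φ) γ t N ν2 A S a B b 21 hΨ hGC hγ hG0 hν0 hGN hA0 hS ha hB hb
      (by norm_num) hD2 hPN (b3 γ1) (by rw [hSpeed, ← hSpeed]; exact b1 γ1) hSpeed hOrth hK
    rw [e2, norm_smul, Real.norm_eq_abs, abs_of_pos (inv_pos.2 hS), inv_mul_le_iff₀ hS]
    linarith

end Pool.Agent.Helper50.BD.ASM
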